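import Pool.Agent.H94.LP3.M69

/-!
# Module G2 (TJ): the main theorem

`w = bw r d' s b`, `b l = d' - m' (J l)`; `cnt r s b e = (Rg e w).card` for `e ≤ d'` (`count_eq`).  `h = r`,
`l = r - 1` (the last two coordinates are `≥ s`, width `d'`), `u`: if `s + 2 ≤ r` the coordinate `s` (width `d'`), otherwise the
coordinate of the point with `m' (J l) + D ≤ d'`.  `N = (Rg d' w).card`, `L = ∑ Lx w (m' i)`, `R = N - L`:
`exact_all` for `S = {m' i} + R · 1` gives `upper`; `lower`; so `dim = N - L = max 0 (N - L)`; `final_of_dim`.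
-/

namespace Pool.Agent.H18.Tj

open Finset Function Pool.Agent.H18.Ex Pool.Agent.H18.Fat

/-- The number of the monomials of degree `e` in `x_0, …, x_r` with exponent at most `b l` at `x_l`, `l < s`. -/
noncomputable def cnt (r s : ℕ) (b : Fin s → ℕ) (e : ℕ) : ℕ :=
  Nat.card {α : Fin (r + 1) → ℕ // ∑ l, α l = e ∧ ∀ (l : Fin s) (h : l.val < r + 1),
    α ⟨l.val, h⟩ ≤ b l}

theorem count_eq (r s d e : ℕ) (hs : s ≤ r + 1) (he : e ≤ d) (b : Fin s → ℕ) :
    cnt r s b e = (Ex.Rg e (bw r d s b)).card := by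
  have h1 : ∀ α : Fin (r + 1) → ℕ, (∑ l, α l = e ∧ ∀ (l : Fin s) (h : l.val < r + 1),
      α ⟨l.val, h⟩ ≤ b l) ↔ α ∈ Ex.Rg e (bw r d s b) := by
    intro α
    rw [Ex.mem_Rg, and_comm]
    refine and_congr_left fun hsum => ⟨fun h i => ?_, fun h l hl => ?_⟩
    · unfold bw
      split_ifs with hi
      · exact h ⟨i.val, hi⟩ i.2
      · have h2 : α i ≤ ∑ l, α l := single_le_sum (fun _ _ => Nat.zero_le _) (mem_univ i)
        omega
    · have h2 := h ⟨l.val, hl⟩
      unfold bw at h2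
      rwa [dif_pos l.2] at h2
  unfold cnt
  rw [Nat.card_congr (Equiv.subtypeEquivRight h1), Nat.card_eq_fintype_card, Fintype.card_coe]

end Pool.Agent.H18.Tj
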